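import Pool.Agent.Y554.SN.Stm2
import Pool.Agent.H389R2.NS.SumSp

/-! SN-FIN (job 4511, helper657 for helper554): sharp noise sensitivity from the recursion -/

set_option autoImplicit false

namespace Pool.Agent.Y657.SN

open H974 H12S H985T H389NS Finset Pool.Agent.Y554.DP Pool.Agent.Y554.SN

/-! ### Real analysis -/

/-- the choice of the exponent -/
theorem exg {lam M : ℝ} (h0 : 0 < lam) (h1 : lam < 1) (hM : 0 < M) :
    ∃ γ : ℝ, 0 < γ ∧ γ < 1 ∧ lam ^ (1 - γ) * M ^ γ < 1 := by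
  have hc : ContinuousAt (fun γ : ℝ => lam ^ (1 - γ) * M ^ γ) 0 := by
    have c1 : Continuous fun γ : ℝ => lam ^ (1 - γ) :=
      Real.continuous_const_rpow h0.ne' |>.comp (continuous_const.sub continuous_id)
    have c2 : Continuous fun γ : ℝ => M ^ γ := Real.continuous_const_rpow hM.ne'
    exact (c1.mul c2).continuousAt
  have h2 : ∀ᶠ γ in nhds (0 : ℝ), lam ^ (1 - γ) * M ^ γ < 1 := by
    refine hc.eventually (gt_mem_nhds ?_)
    simpa using h1
  obtain ⟨ε, hε, hb⟩ := Metric.eventually_nhds_iff.1 h2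
  refine ⟨min (ε / 2) (1 / 2), by positivity, ?_, hb ?_⟩
  · exact (min_le_right _ _).trans_lt (by norm_num)
  · rw [Real.dist_eq, sub_zero, abs_of_pos (by positivity)]
    exact (min_le_left _ _).trans_lt (by linarith)

/-- the recursion -/
theorem recur {a m : ℕ → ℝ} {δ lam M γ κ : ℝ} (hδ : 0 < δ) (hl : 0 < lam) (hM : 0 < M)
    (hγ0 : 0 < γ) (hγ1 : γ < 1) (hκ1 : δ ^ γ ≤ κ) (hκ2 : lam ^ (1 - γ) * M ^ γ ≤ κ)
    (ha : ∀ j, 0 ≤ a j) (hm : ∀ j, 0 ≤ m j) (J : ℕ)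
    (h : ∀ j < J, a j ≤ a (j + 1) ∧ m j ≤ M * m (j + 1) ∧
      (m j ≤ δ * m (j + 1) ∨ a j ≤ lam * a (j + 1))) :
    a 0 ^ (1 - γ) * m 0 ^ γ ≤ κ ^ J * (a J ^ (1 - γ) * m J ^ γ) := by
  have hg' : 0 ≤ 1 - γ := by linarith
  have hκ0 : 0 ≤ κ := le_trans (by positivity) hκ1
  induction J with
  | zero => simp
  | succ J ih =>
    have h1 := ih fun j hj => h j (by omega)
    obtain ⟨h2, h3, h4⟩ := h J (Nat.lt_succ_self J)
    have hX : 0 ≤ a (J + 1) ^ (1 - γ) * m (J + 1) ^ γ :=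
      mul_nonneg (Real.rpow_nonneg (ha _) _) (Real.rpow_nonneg (hm _) _)
    have h5 : a J ^ (1 - γ) * m J ^ γ ≤ κ * (a (J + 1) ^ (1 - γ) * m (J + 1) ^ γ) := by
      rcases h4 with h4 | h4
      · calc a J ^ (1 - γ) * m J ^ γ ≤ a (J + 1) ^ (1 - γ) * (δ * m (J + 1)) ^ γ :=
              mul_le_mul (Real.rpow_le_rpow (ha _) h2 hg') (Real.rpow_le_rpow (hm _) h4 hγ0.le)
                (Real.rpow_nonneg (hm _) _) (Real.rpow_nonneg (ha _) _)
          _ = δ ^ γ * (a (J + 1) ^ (1 - γ) * m (J + 1) ^ γ) := by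
              rw [Real.mul_rpow hδ.le (hm _)]
              ring
          _ ≤ _ := mul_le_mul_of_nonneg_right hκ1 hX
      · calc a J ^ (1 - γ) * m J ^ γ ≤ (lam * a (J + 1)) ^ (1 - γ) * (M * m (J + 1)) ^ γ :=
              mul_le_mul (Real.rpow_le_rpow (ha _) h4 hg') (Real.rpow_le_rpow (hm _) h3 hγ0.le)
                (Real.rpow_nonneg (hm _) _) (Real.rpow_nonneg (mul_nonneg hl.le (ha _)) _)
          _ = lam ^ (1 - γ) * M ^ γ * (a (J + 1) ^ (1 - γ) * m (J + 1) ^ γ) := by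
              rw [Real.mul_rpow hl.le (ha _), Real.mul_rpow hM.le (hm _)]
              ring
          _ ≤ _ := mul_le_mul_of_nonneg_right hκ2 hX
    refine h1.trans ?_
    rw [pow_succ, mul_assoc]
    exact mul_le_mul_of_nonneg_left h5 (by positivity)

/-- the powers of `κ` -/
theorem kap_pow {κ B h n g : ℝ} {J : ℕ} (hκ0 : 0 < κ) (hκ1 : κ < 1) (hB : 0 < B) (hh : 0 < h)
    (hn : 0 < n) (hg0 : 0 < g) (hg : g ≤ B * h ^ (-(4 / 3) : ℝ)) (hJ : n ≤ 132 * (64 ^ J * g)) :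
    κ ^ J ≤ (132 * B) ^ (-Real.log κ / Real.log 64) *
      (h * n ^ (3 / 4 : ℝ)) ^ (-(4 / 3 * (-Real.log κ / Real.log 64))) := by
  obtain ⟨c, hc⟩ : ∃ c, c = -Real.log κ / Real.log 64 := ⟨_, rfl⟩
  have hl : 0 < Real.log 64 := Real.log_pos (by norm_num)
  have hc0 : 0 < c := by
    rw [hc]
    exact div_pos (neg_pos.2 (Real.log_neg hκ0 hκ1)) hl
  rw [← hc]
  have e1 : κ = (64 : ℝ) ^ (-c) := by
    rw [Real.rpow_def_of_pos (by norm_num), hc]
    have : Real.log 64 * -(-Real.log κ / Real.log 64) = Real.log κ := by field_simp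
    rw [this, Real.exp_log hκ0]
  have e2 : κ ^ J = ((64 : ℝ) ^ J) ^ (-c) := by
    rw [e1, ← Real.rpow_natCast, ← Real.rpow_natCast, ← Real.rpow_mul (by norm_num),
      ← Real.rpow_mul (by norm_num), mul_comm]
  have hs0 : 0 < h ^ (-(4 / 3) : ℝ) := Real.rpow_pos_of_pos hh _
  have h1 : n * h ^ (4 / 3 : ℝ) / (132 * B) ≤ 64 ^ J := by
    have hs : h ^ (4 / 3 : ℝ) * h ^ (-(4 / 3) : ℝ) = 1 := by
      rw [← Real.rpow_add hh]
      simp
    have hs2 : 0 < h ^ (4 / 3 : ℝ) := Real.rpow_pos_of_pos hh _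
    rw [div_le_iff₀ (by positivity)]
    have h2 : n ≤ 132 * (64 ^ J * (B * h ^ (-(4 / 3) : ℝ))) := by
      refine hJ.trans ?_
      gcongr
    calc n * h ^ (4 / 3 : ℝ) ≤ 132 * (64 ^ J * (B * h ^ (-(4 / 3) : ℝ))) * h ^ (4 / 3 : ℝ) :=
          mul_le_mul_of_nonneg_right h2 hs2.le
      _ = 64 ^ J * (132 * B) * (h ^ (4 / 3 : ℝ) * h ^ (-(4 / 3) : ℝ)) := by ring
      _ = _ := by rw [hs, mul_one]
  have hpos : 0 < n * h ^ (4 / 3 : ℝ) / (132 * B) := by positivity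
  rw [e2]
  refine (Real.rpow_le_rpow_of_nonpos hpos h1 (by linarith)).trans (le_of_eq ?_)
  have e3 : n * h ^ (4 / 3 : ℝ) = (h * n ^ (3 / 4 : ℝ)) ^ (4 / 3 : ℝ) := by
    rw [Real.mul_rpow hh.le (by positivity), ← Real.rpow_mul hn.le]
    norm_num
    ring
  rw [Real.div_rpow (by positivity) (by positivity), e3, ← Real.rpow_mul (by positivity),
    Real.rpow_neg (by positivity : (0 : ℝ) ≤ 132 * B), div_inv_eq_mul, mul_comm]
  congr 2
  ring

/-! ### Cells -/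

theorem cel_card {g ρ K : ℕ} (hg : 1 ≤ g) (h : ρ ≤ K * g) : (Pool.Agent.Y554.SN.cel g ρ).card ≤ (2 * K + 1) ^ 2 := by
  have h1 : Pool.Agent.Y554.SN.cel g ρ ⊆ ((Finset.Icc (-(K : ℤ)) K ×ˢ Finset.Icc (-(K : ℤ)) K)).image
      (fun c => ((g : ℤ) * c.1, (g : ℤ) * c.2)) := by
    intro c hc
    unfold Pool.Agent.Y554.SN.cel at hc
    simp only [Finset.mem_filter, Finset.mem_product, Finset.mem_Icc] at hc
    obtain ⟨⟨⟨a1, a2⟩, ⟨b1, b2⟩⟩, ⟨a, ha⟩, ⟨b, hb⟩⟩ := hc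
    have hg0 : (0 : ℤ) < g := by exact_mod_cast hg
    have hρ : (ρ : ℤ) ≤ g * K := by
      have : (ρ : ℤ) ≤ K * g := by exact_mod_cast h
      linarith
    have key : ∀ t : ℤ, -(ρ : ℤ) ≤ g * t → g * t ≤ ρ → -(K : ℤ) ≤ t ∧ t ≤ K := by
      intro t h1 h2
      constructor
      · refine le_of_mul_le_mul_left ?_ hg0
        linarith
      · refine le_of_mul_le_mul_left ?_ hg0
        linarith
    rw [Finset.mem_image]
    refine ⟨(a, b), ?_, ?_⟩
    · simp only [Finset.mem_product, Finset.mem_Icc]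
      rw [ha] at a1 a2
      rw [hb] at b1 b2
      exact ⟨key a a1 a2, key b b1 b2⟩
    · exact Prod.ext ha.symm hb.symm
  refine (Finset.card_le_card h1).trans (Finset.card_image_le.trans (le_of_eq ?_))
  rw [Finset.card_product, Int.card_Icc]
  have : ((K : ℤ) + 1 - -(K : ℤ)).toNat = 2 * K + 1 := by omega
  rw [this]
  ring

section

variable {p : Edg → ℝ} {S : Finset Edg} {I J I' J' : Set Vtx} {n : ℕ}

theorem sp_nn (hp : Ok p) (V : Finset Edg) (f : Finset Edg → ℝ) (T : Finset Edg) :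
    0 ≤ sp p S V f T := by
  unfold sp
  exact Ex_nonneg hp (fun _ _ => sq_nonneg _)

/-- (as d3_sum_le_one of Pool.Agent.H389R2.NS.D3) -/
theorem sum_le_one (hp : Ok p) {V : Finset Edg} (hV : V ⊆ S)
    (hp2 : ∀ e ∈ V, p e = 1 / 2) (I J : Set Vtx) :
    ∑ T ∈ V.powerset, sp p S V (fC I J) T ≤ 1 := by
  have h := sum_sp (p := p) (S := S) (V := V) (W := ∅) hV hp2 (Finset.empty_subset _) (fC I J)
  rw [Finset.sdiff_empty] at h
  rw [h]
  unfold UU
  apply Ex_le_of_le hp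
  intro G _
  rw [Ex_empty]
  unfold fC
  have a := ind_nonneg (Cn I J (↑(G ∪ ∅ : Finset Edg) : Set Edg))
  have b := ind_le_one (Cn I J (↑(G ∪ ∅ : Finset Edg) : Set Edg))
  nlinarith

theorem phi_nonneg (hp : Ok p) (ρ : ℕ) {h : ℝ} (h1 : h ≤ 1) : 0 ≤ phi p S I J n ρ h :=
  Finset.sum_nonneg fun T _ => mul_nonneg (sp_nn hp _ _ _) (pow_nonneg (by linarith) _)

theorem phi_le_one (hD : DomN p S I J I' J' n) (ρ : ℕ) {h : ℝ} (h0 : 0 ≤ h) (h1 : h ≤ 1) :
    phi p S I J n ρ h ≤ 1 := by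
  refine le_trans ?_ (sum_le_one hD.ok hD.sub hD.fair I J)
  refine (Finset.sum_le_sum_of_subset_of_nonneg (Finset.filter_subset _ _) fun T _ _ =>
    mul_nonneg (sp_nn hD.ok _ _ _) (pow_nonneg (by linarith) _)).trans ?_
  refine Finset.sum_le_sum fun T _ => ?_
  exact mul_le_of_le_one_right (sp_nn hD.ok _ _ _) (pow_le_one₀ (by linarith) (by linarith))

theorem phi_mono (hp : Ok p) {ρ ρ' : ℕ} (hρ : ρ ≤ ρ') {h h' : ℝ} (h1 : h ≤ 1) (hh : h' ≤ h) :
    phi p S I J n ρ h ≤ phi p S I J n ρ' h' := by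
  unfold phi
  refine (Finset.sum_le_sum fun T _ => mul_le_mul_of_nonneg_left
    (pow_le_pow_left₀ (by linarith : (0 : ℝ) ≤ 1 - h) (by linarith : 1 - h ≤ 1 - h') T.card)
    (sp_nn hp _ _ _)).trans ?_
  refine Finset.sum_le_sum_of_subset_of_nonneg (fun T hT => ?_) fun T _ _ =>
    mul_nonneg (sp_nn hp _ _ _) (pow_nonneg (by linarith) _)
  rw [Finset.mem_filter] at hT ⊢
  exact ⟨hT.1, fun hd => hT.2 (hd.mono_right (boxE_mono hρ))⟩

theorem mm_nonneg (hab : S_AB) (hD : DomN p S I J I' J' n) (g : ℕ) {h : ℝ} (h0 : 0 ≤ h)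
    (h1 : h ≤ 1) : 0 ≤ mm p S I J n g h :=
  Finset.sum_nonneg fun _ _ => ((hab p hD.ok S (boxE n) I J hD.sub).2.2.1 _ h h0 h1).1

theorem mm_le (hab : S_AB) (hD : DomN p S I J I' J' n) {g : ℕ} (hg : 1 ≤ g) (hng : n ≤ 132 * g)
    {h : ℝ} (h0 : 0 ≤ h) (h1 : h ≤ 1) : mm p S I J n g h ≤ 18769 := by
  unfold mm
  refine (Finset.sum_le_card_nsmul _ _ 1 fun c _ =>
    ((hab p hD.ok S (boxE n) I J hD.sub).2.2.1 _ h h0 h1).2).trans ?_
  have h2 := cel_card (ρ := n / 2 + 2 * g) (K := 68) hg (by omega)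
  rw [nsmul_eq_mul, mul_one]
  have h3 : (2 * 68 + 1) ^ 2 = 18769 := by norm_num
  rw [h3] at h2
  exact_mod_cast h2

end

theorem nss (hst : S_STEP) (hab : S_AB) : S_NSS := by
  obtain ⟨A, r0, δ, lam, c4, hA, hr0, hδ0, hδ1, hl0, hl1, hc0, hc1, hstep⟩ := hst
  obtain ⟨γ, hγ0, hγ1, hγ⟩ := exg hl0 hl1 (show (0 : ℝ) < 4096 by norm_num)
  obtain ⟨κ, hκ⟩ : ∃ κ, κ = max (δ ^ γ) (lam ^ (1 - γ) * 4096 ^ γ) := ⟨_, rfl⟩
  have hκa : δ ^ γ ≤ κ := by rw [hκ]; exact le_max_left _ _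
  have hκb : lam ^ (1 - γ) * 4096 ^ γ ≤ κ := by rw [hκ]; exact le_max_right _ _
  have hκ0 : 0 < κ := lt_of_lt_of_le (by positivity) hκa
  have hκ1 : κ < 1 := by
    rw [hκ]
    exact max_lt (Real.rpow_lt_one hδ0.le hδ1 hγ0) hγ
  have hl64 : 0 < Real.log 64 := Real.log_pos (by norm_num)
  have hcc : 0 < -Real.log κ / Real.log 64 := div_pos (neg_pos.2 (Real.log_neg hκ0 hκ1)) hl64
  have hA' : (1 : ℝ) ≤ A := by exact_mod_cast hA
  have hr0' : (1 : ℝ) ≤ r0 := by exact_mod_cast hr0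
  obtain ⟨B, hB⟩ : ∃ B : ℝ, B = A * (r0 + 2) := ⟨_, rfl⟩
  have hB0 : 0 < B := by rw [hB]; positivity
  refine ⟨18769 * (132 * B) ^ (-Real.log κ / Real.log 64), 4 / 3 * (-Real.log κ / Real.log 64),
    by positivity, by positivity, fun n hn p S I J I' J' hD x hx0 hx1 => ?_⟩
  obtain ⟨h, hh⟩ : ∃ h, h = 1 - x := ⟨_, rfl⟩
  have hh0 : 0 < h := by linarith
  have hh1 : h ≤ 1 := by linarith
  have hx : x = 1 - h := by linarith
  rw [← hh, hx]
  change phi p S I J n (n / 2) h ≤ _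
  -- the scale
  obtain ⟨s, hs⟩ : ∃ s, s = h ^ (-(4 / 3) : ℝ) := ⟨_, rfl⟩
  have hs1 : 1 ≤ s := by
    rw [hs]
    exact Real.one_le_rpow_of_pos_of_le_one_of_nonpos hh0 hh1 (by norm_num)
  obtain ⟨r, hr⟩ : ∃ r, r = r0 + ⌈s⌉₊ := ⟨_, rfl⟩
  have hrr : r0 ≤ r := by omega
  have hr1 : 1 ≤ r := by omega
  have hsr : s ≤ r := by
    rw [hr]
    push_cast
    have := Nat.le_ceil s
    linarith
  have hrs : (r : ℝ) ≤ (r0 + 2) * s := by
    rw [hr]
    push_cast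
    have := (Nat.ceil_lt_add_one (by linarith : 0 ≤ s)).le
    nlinarith
  obtain ⟨g, hg⟩ : ∃ g, g = A * r := ⟨_, rfl⟩
  have hg1 : 1 ≤ g := by
    rw [hg]
    exact Nat.mul_pos hA hr1
  have hgr : (g : ℝ) = A * r := by rw [hg]; push_cast; ring
  have hgs : (g : ℝ) ≤ B * h ^ (-(4 / 3) : ℝ) := by
    rw [← hs, hgr, hB]
    nlinarith
  have hsg : s ≤ g := by
    rw [hgr]
    nlinarith
  -- the number of levels
  have hex : ∃ J, n < 132 * (64 ^ J * g) := by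
    refine ⟨n, ?_⟩
    have h1 : n < 64 ^ n := Nat.lt_pow_self (by norm_num)
    nlinarith
  classical
  obtain ⟨L, hL⟩ : ∃ L, L = Nat.find hex := ⟨_, rfl⟩
  have hL1 : n < 132 * (64 ^ L * g) := by rw [hL]; exact Nat.find_spec hex
  have hL2 : ∀ j < L, 132 * (64 ^ j * g) ≤ n := by
    intro j hj
    rw [hL] at hj
    exact not_lt.1 (Nat.find_min hex hj)
  have hκL := kap_pow (J := L) hκ0 hκ1 hB0 hh0 (n := n) (g := g) (by exact_mod_cast hn)
    (by exact_mod_cast hg1) hgs (by exact_mod_cast hL1.le)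
  have hgoal : phi p S I J n (n / 2) h ≤ 18769 * κ ^ L := by
    rcases Nat.eq_zero_or_pos L with h0 | hLpos
    · rw [h0, pow_zero]
      have := phi_le_one hD (n / 2) hh0.le hh1
      linarith
    · -- the levels
      obtain ⟨H, hH⟩ : ∃ H : ℕ → ℝ, H = fun j => c4 * ((4 * (64 ^ j * g) : ℕ) : ℝ) ^ (-(3 / 4) : ℝ) :=
        ⟨_, rfl⟩
      have hbig : ∀ j, (1 : ℝ) ≤ ((4 * (64 ^ j * g) : ℕ) : ℝ) := by
        intro j
        have : 1 ≤ 4 * (64 ^ j * g) := by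
          have : 0 < 64 ^ j * g := by positivity
          omega
        exact_mod_cast this
      have hH0 : ∀ j, 0 ≤ H j := by
        intro j
        rw [hH]
        positivity
      have hH1 : ∀ j, H j ≤ 1 := by
        intro j
        rw [hH]
        have := Real.rpow_le_one_of_one_le_of_nonpos (hbig j) (show (-(3 / 4) : ℝ) ≤ 0 by norm_num)
        have h3 : (0 : ℝ) ≤ ((4 * (64 ^ j * g) : ℕ) : ℝ) ^ (-(3 / 4) : ℝ) := by positivity
        simp only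
        nlinarith
      obtain ⟨a, ha⟩ : ∃ a : ℕ → ℝ, a = fun j => phi p S I J n (n / 2 + 64 ^ j * g) (H j) :=
        ⟨_, rfl⟩
      obtain ⟨m, hm⟩ : ∃ m : ℕ → ℝ, m = fun j => mm p S I J n (64 ^ j * g) (H j) := ⟨_, rfl⟩
      have ha0 : ∀ j, 0 ≤ a j := fun j => by rw [ha]; exact phi_nonneg hD.ok _ (hH1 j)
      have hm0 : ∀ j, 0 ≤ m j := fun j => by rw [hm]; exact mm_nonneg hab hD _ (hH0 j) (hH1 j)
      have hst : ∀ j < L, a j ≤ m j ∧ a j ≤ a (j + 1) ∧ m j ≤ 4096 * m (j + 1) ∧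
          (m j ≤ δ * m (j + 1) ∨ a j ≤ lam * a (j + 1)) := by
        intro j hj
        have e1 : 64 ^ (j + 1) * g = 64 * (64 ^ j * g) := by ring
        have e2 : H (j + 1) = c4 * ((256 * (64 ^ j * g) : ℕ) : ℝ) ^ (-(3 / 4) : ℝ) := by
          rw [hH]
          simp only
          congr 3
          rw [e1]
          ring
        have h1 := hstep n (64 ^ j * r) (64 ^ j * g)
          (hrr.trans (Nat.le_mul_of_pos_left _ (by positivity))) (by rw [hg]; ring)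
          (by have := hL2 j hj; omega) p S I J I' J' hD (H j) (H (j + 1)) (by rw [hH]) e2
        rw [ha, hm]
        simp only
        rw [e1]
        exact h1
      have h1 := recur (a := a) (m := m) hδ0 hl0 (show (0 : ℝ) < 4096 by norm_num) hγ0 hγ1 hκa hκb
        ha0 hm0 L (fun j hj => (hst j hj).2)
      have hmL : m L ≤ 18769 := by
        rw [hm]
        exact mm_le hab hD (Nat.mul_pos (by positivity) hg1) hL1.le (hH0 L) (hH1 L)
      have haL : a L ≤ 1 := by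
        rw [ha]
        exact phi_le_one hD _ (hH0 L) (hH1 L)
      have h2 : a L ^ (1 - γ) ≤ 1 := Real.rpow_le_one (ha0 L) haL (by linarith)
      have h3 : m L ^ γ ≤ 18769 := by
        calc m L ^ γ ≤ (18769 : ℝ) ^ γ := Real.rpow_le_rpow (hm0 L) hmL hγ0.le
          _ ≤ (18769 : ℝ) ^ (1 : ℝ) := Real.rpow_le_rpow_of_exponent_le (by norm_num) hγ1.le
          _ = 18769 := Real.rpow_one _
      have h4 : a L ^ (1 - γ) * m L ^ γ ≤ 18769 := by
        calc a L ^ (1 - γ) * m L ^ γ ≤ 1 * 18769 :=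
              mul_le_mul h2 h3 (Real.rpow_nonneg (hm0 L) _) zero_le_one
          _ = 18769 := one_mul _
      have h5 : a 0 ≤ a 0 ^ (1 - γ) * m 0 ^ γ := by
        have e : a 0 = a 0 ^ (1 - γ) * a 0 ^ γ := by
          rcases (ha0 0).eq_or_lt with h | h
          · rw [← h, Real.zero_rpow hγ0.ne', mul_zero]
          · rw [← Real.rpow_add h]
            simp
        calc a 0 = a 0 ^ (1 - γ) * a 0 ^ γ := e
          _ ≤ _ := mul_le_mul_of_nonneg_left (Real.rpow_le_rpow (ha0 0) (hst 0 hLpos).1 hγ0.le)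
              (Real.rpow_nonneg (ha0 0) _)
      have h6 : phi p S I J n (n / 2) h ≤ a 0 := by
        rw [ha]
        refine phi_mono hD.ok (by omega) hh1 ?_
        rw [hH]
        have h7 : ((4 * (64 ^ 0 * g) : ℕ) : ℝ) ^ (-(3 / 4) : ℝ) ≤ s ^ (-(3 / 4) : ℝ) := by
          refine Real.rpow_le_rpow_of_nonpos (by linarith) ?_ (by norm_num)
          push_cast
          linarith
        have h8 : s ^ (-(3 / 4) : ℝ) = h := by
          rw [hs, ← Real.rpow_mul hh0.le]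
          norm_num
        rw [h8] at h7
        have h9 : (0 : ℝ) ≤ ((4 * (64 ^ 0 * g) : ℕ) : ℝ) ^ (-(3 / 4) : ℝ) := by positivity
        simp only
        nlinarith
      have h7 : (0 : ℝ) < κ ^ L := by positivity
      calc phi p S I J n (n / 2) h ≤ a 0 := h6
        _ ≤ a 0 ^ (1 - γ) * m 0 ^ γ := h5
        _ ≤ κ ^ L * (a L ^ (1 - γ) * m L ^ γ) := h1
        _ ≤ κ ^ L * 18769 := mul_le_mul_of_nonneg_left h4 h7.le
        _ = _ := mul_comm _ _
  calc phi p S I J n (n / 2) h ≤ 18769 * κ ^ L := hgoal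
    _ ≤ 18769 * ((132 * B) ^ (-Real.log κ / Real.log 64) *
      (h * (n : ℝ) ^ (3 / 4 : ℝ)) ^ (-(4 / 3 * (-Real.log κ / Real.log 64)))) :=
        mul_le_mul_of_nonneg_left hκL (by norm_num)
    _ = _ := by rw [mul_assoc]

end Pool.Agent.Y657.SN
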